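import Pool.Agent.Helper99.SC.GeoStmts

/-!
# Module SG4: closure for the local edges of the rows ML, S, MR
-/

set_option autoImplicit false
set_option linter.unnecessarySeqFocus false

namespace Pool.Agent.Helper99.SC.CY

open Pool.Agent.Helper99.SC

variable {ops : List Op} {X : ℕ → ℕ → Bool} {b : Bool}

lemma btw_same {i r k l l' : ℕ} {c : Pl} (h : btw (i, r, k, l) (i, r, k, l') c) :
    ∃ q, c = (i, r, k, q) ∧ ((l < q ∧ q < l') ∨ (l' < q ∧ q < l)) := by
  obtain ⟨c1, c2, c3, c4⟩ := c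
  unfold btw plt at h
  simp only at h
  have h' : c1 = i ∧ c2 = r ∧ c3 = k := by omega
  obtain ⟨rfl, rfl, rfl⟩ := h'
  exact ⟨c4, rfl, by omega⟩

lemma outs_ne_right {a t : Pl} (h : outs a t t) : False := by
  unfold outs plt at h
  omega

lemma PCross_symm {s t s' t' : Pl} (h : PCross s t s' t') : PCross s' t' s t := by
  unfold PCross btw outs at *
  tauto

lemma Y_page {i r k l i' r' k' l' : ℕ} (h : HY ops (i, r, k, l) (i', r', k', l'))
    (hp : Pg ops X b (i, r, k, l) (i', r', k', l')) :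
    ((r = 1 ∨ r = 3) → b = !X i k) ∧ (r = 2 → b = X i k) := by
  unfold HY at h
  simp only at h
  obtain ⟨rfl, rfl, rfl, hi, (⟨rfl, rfl, rfl | rfl⟩ | ⟨rfl, rfl, rfl | rfl⟩ | ⟨rfl, rfl, rfl | rfl⟩ | ⟨rfl, rfl, rfl | rfl⟩)⟩ := h
  all_goals
    simp [Pg, PR, PY, PT, PP, PD, HR, IsTT, HY, HT, HP, HD] at hp ⊢
    exact hp.2

/-! shadows -/

lemma sh1 {i k i' r' k' l' : ℕ} (h : PR ops X b (i, 1, k, 1) (i', r', k', l')) (hb : b = !X i k) :
    PR ops X b (i, 1, k, 0) (i', r', k', l') := by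
  subst hb
  simp [PR, HR, IsTT] at h ⊢
  grind (splits := 30)

lemma sh2 {i k i' r' k' l' : ℕ} (h : PR ops X b (i, 2, k, 1) (i', r', k', l')) (hb : b = X i k) :
    PR ops X b (i, 2, k, 0) (i', r', k', l') := by
  subst hb
  simp [PR, HR, IsTT] at h ⊢
  grind (splits := 30)

lemma sh3 {i k i' r' k' l' : ℕ} (h : PR ops X b (i, 2, k, 6) (i', r', k', l')) (hb : b = X i k) :
    PR ops X b (i, 2, k, 7) (i', r', k', l') := by
  subst hb
  simp [PR, HR, IsTT] at h ⊢
  grind (splits := 30)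

lemma sh4 {i k i' r' k' l' : ℕ} (h : PR ops X b (i, 3, k, 4) (i', r', k', l')) (hb : b = !X i k) :
    PR ops X b (i, 3, k, 5) (i', r', k', l') := by
  subst hb
  simp [PR, HR, IsTT] at h ⊢
  grind (splits := 30)

/-- an edge of the page which starts at a shadowed source of a row, not inside the node -/
lemma s_edge {i r k l m i' r' k' l' : ℕ} (hr : r ≠ 0) (hs : HY ops (i, r, k, l) (i, r, k, m))
    (hp : Pg ops X b (i, r, k, l) (i', r', k', l'))
    (ho : ∀ t : Pl, t = (i', r', k', l') → t ≠ (i, r, k, m)) :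
    PR ops X b (i, r, k, l) (i', r', k', l') := by
  rcases hp with h | h | h | h | h
  · exact h
  · exfalso
    unfold HY at hs
    unfold PY HY at h
    simp only at hs h
    refine ho _ rfl ?_
    simp only [Prod.mk.injEq]
    omega
  · exfalso
    unfold PT HT at h
    simp only at h
    omega
  · exfalso
    unfold PP HP at h
    simp only [Prod.mk.injEq] at h
    omega
  · exfalso
    unfold HY at hs
    unfold PD HD at h
    simp only [Prod.mk.injEq] at hs h
    omega

/-- first case: `s → t` is inside a node -/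
lemma caseA {s t s' t' : Pl} (h : HY ops s t) (hp : Pg ops X b s t) (hp' : Pg ops X b s' t')
    (hc : PCross s t s' t') : Pg ops X b s t' := by
  obtain ⟨i, r, k, l⟩ := s
  obtain ⟨i', r', k', l'⟩ := t
  have hb := Y_page h hp
  unfold HY at h
  simp only at h
  obtain ⟨rfl, rfl, rfl, hi, h⟩ := h
  obtain ⟨i', r', k', m⟩ := t'
  rcases hc with ⟨h1, h2⟩ | ⟨h1, h2⟩
  · obtain ⟨q, rfl, hq⟩ := btw_same h1
    have hne : ∀ u : Pl, u = (i', r', k', m) → u ≠ (i, r, k, l') := by
      rintro u rfl hu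
      rw [hu] at h2
      exact outs_ne_right h2
    rcases h with ⟨rfl, rfl, rfl | rfl⟩ | ⟨rfl, rfl, rfl | rfl⟩ | ⟨rfl, rfl, rfl | rfl⟩ |
      ⟨rfl, rfl, rfl | rfl⟩
    · -- ML, 0 → 3
      have hb1 : b = !X i k := hb.1 (Or.inl rfl)
      have hq' : q = 1 ∨ q = 2 := by omega
      rcases hq' with rfl | rfl
      · exact Or.inl (sh1 (s_edge (by omega) (by simp [HY, hi]) hp' hne) hb1)
      · subst hb1
        simp [Pg, PR, PY, PT, PP, PD, HR, HY, HT, HP, HD] at hp'
    · have hb1 : b = !X i k := hb.1 (Or.inl rfl)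
      have hq' : q = 2 := by omega
      subst hq' hb1
      simp [Pg, PR, PY, PT, PP, PD, HR, HY, HT, HP, HD] at hp'
    · -- S, 0 → 3
      have hb1 : b = X i k := hb.2 rfl
      have hq' : q = 1 ∨ q = 2 := by omega
      rcases hq' with rfl | rfl
      · exact Or.inl (sh2 (s_edge (by omega) (by simp [HY, hi]) hp' hne) hb1)
      · subst hb1
        simp [Pg, PR, PY, PT, PP, PD, HR, HY, HT, HP, HD] at hp'
    · have hb1 : b = X i k := hb.2 rfl
      have hq' : q = 2 := by omega
      subst hq' hb1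
      simp [Pg, PR, PY, PT, PP, PD, HR, HY, HT, HP, HD] at hp'
    · -- S, 6 → 4
      have hb1 : b = X i k := hb.2 rfl
      have hq' : q = 5 := by omega
      subst hq' hb1
      simp [Pg, PR, PY, PT, PP, PD, HR, HY, HT, HP, HD] at hp'
    · -- S, 7 → 4
      have hb1 : b = X i k := hb.2 rfl
      have hq' : q = 6 ∨ q = 5 := by omega
      rcases hq' with rfl | rfl
      · exact Or.inl (sh3 (s_edge (by omega) (by simp [HY, hi]) hp' hne) hb1)
      · subst hb1
        simp [Pg, PR, PY, PT, PP, PD, HR, HY, HT, HP, HD] at hp'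
    · -- MR, 4 → 2
      have hb1 : b = !X i k := hb.1 (Or.inr rfl)
      have hq' : q = 3 := by omega
      subst hq' hb1
      simp [Pg, PR, PY, PT, PP, PD, HR, HY, HT, HP, HD] at hp'
    · -- MR, 5 → 2
      have hb1 : b = !X i k := hb.1 (Or.inr rfl)
      have hq' : q = 4 ∨ q = 3 := by omega
      rcases hq' with rfl | rfl
      · exact Or.inl (sh4 (s_edge (by omega) (by simp [HY, hi]) hp' hne) hb1)
      · subst hb1
        simp [Pg, PR, PY, PT, PP, PD, HR, HY, HT, HP, HD] at hp'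
  · exfalso
    obtain ⟨q, hq0, hq⟩ := btw_same h1
    simp only [Prod.mk.injEq] at hq0
    obtain ⟨rfl, rfl, rfl, rfl⟩ := hq0
    obtain ⟨j, ρ, c, m'⟩ := s'
    rcases h with ⟨rfl, rfl, rfl | rfl⟩ | ⟨rfl, rfl, rfl | rfl⟩ | ⟨rfl, rfl, rfl | rfl⟩ |
      ⟨rfl, rfl, rfl | rfl⟩
    · have hb1 : b = !X i' k' := hb.1 (Or.inl rfl)
      have hq' : m = 1 ∨ m = 2 := by omega
      rcases hq' with rfl | rfl <;> subst hb1 <;>
        simp [Pg, PR, PY, PT, PP, PD, HR, IsTT, HY, HT, HP, HD] at hp' <;>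
        grind (splits := 20)
    · have hb1 : b = !X i' k' := hb.1 (Or.inl rfl)
      have hq' : m = 2 := by omega
      subst hq' hb1
      simp [Pg, PR, PY, PT, PP, PD, HR, IsTT, HY, HT, HP, HD] at hp' <;>
      grind (splits := 20)
    · have hb1 : b = X i' k' := hb.2 rfl
      have hq' : m = 1 ∨ m = 2 := by omega
      rcases hq' with rfl | rfl <;> subst hb1 <;>
        simp [Pg, PR, PY, PT, PP, PD, HR, IsTT, HY, HT, HP, HD] at hp' <;>
        grind (splits := 20)
    · have hb1 : b = X i' k' := hb.2 rfl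
      have hq' : m = 2 := by omega
      subst hq' hb1
      simp [Pg, PR, PY, PT, PP, PD, HR, IsTT, HY, HT, HP, HD] at hp' <;>
      grind (splits := 20)
    · have hb1 : b = X i' k' := hb.2 rfl
      have hq' : m = 5 := by omega
      subst hq' hb1
      simp [Pg, PR, PY, PT, PP, PD, HR, IsTT, HY, HT, HP, HD] at hp' <;>
      grind (splits := 20)
    · have hb1 : b = X i' k' := hb.2 rfl
      have hq' : m = 6 ∨ m = 5 := by omega
      rcases hq' with rfl | rfl <;> subst hb1 <;>
        simp [Pg, PR, PY, PT, PP, PD, HR, IsTT, HY, HT, HP, HD] at hp' <;>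
        grind (splits := 20)
    · have hb1 : b = !X i' k' := hb.1 (Or.inr rfl)
      have hq' : m = 3 := by omega
      subst hq' hb1
      simp [Pg, PR, PY, PT, PP, PD, HR, IsTT, HY, HT, HP, HD] at hp' <;>
      grind (splits := 20)
    · have hb1 : b = !X i' k' := hb.1 (Or.inr rfl)
      have hq' : m = 4 ∨ m = 3 := by omega
      rcases hq' with rfl | rfl <;> subst hb1 <;>
        simp [Pg, PR, PY, PT, PP, PD, HR, IsTT, HY, HT, HP, HD] at hp' <;>
        grind (splits := 20)

/-- second case: `s' → t'` is inside a node -/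
lemma caseB {s t s' t' : Pl} (h : HY ops s' t') (hp : Pg ops X b s' t') (hp' : Pg ops X b s t)
    (hc : PCross s t s' t') : Pg ops X b s t' := by
  obtain ⟨i, r, k, l⟩ := s'
  obtain ⟨i', r', k', l'⟩ := t'
  have hb := Y_page h hp
  unfold HY at h
  simp only at h
  obtain ⟨rfl, rfl, rfl, hi, h⟩ := h
  obtain ⟨i', r', k', m⟩ := t
  rcases PCross_symm hc with ⟨h1, h2⟩ | ⟨h1, h2⟩
  · obtain ⟨q, rfl, hq⟩ := btw_same h1
    rcases h with ⟨rfl, rfl, rfl | rfl⟩ | ⟨rfl, rfl, rfl | rfl⟩ | ⟨rfl, rfl, rfl | rfl⟩ |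
      ⟨rfl, rfl, rfl | rfl⟩
    · -- ML, 0 → 3
      have hb1 : b = !X i k := hb.1 (Or.inl rfl)
      have hq' : q = 1 ∨ q = 2 := by omega
      rcases hq' with rfl | rfl
      · exact Or.inr (Or.inl ⟨by simp [HY, hi], by simp [hb1]⟩)
      · subst hb1
        simp [Pg, PR, PY, PT, PP, PD, HR, HY, HT, HP, HD] at hp'
    · have hb1 : b = !X i k := hb.1 (Or.inl rfl)
      have hq' : q = 2 := by omega
      subst hq' hb1
      simp [Pg, PR, PY, PT, PP, PD, HR, HY, HT, HP, HD] at hp'
    · -- S, 0 → 3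
      have hb1 : b = X i k := hb.2 rfl
      have hq' : q = 1 ∨ q = 2 := by omega
      rcases hq' with rfl | rfl
      · exact Or.inr (Or.inl ⟨by simp [HY, hi], by simp [hb1]⟩)
      · subst hb1
        simp [Pg, PR, PY, PT, PP, PD, HR, HY, HT, HP, HD] at hp'
    · have hb1 : b = X i k := hb.2 rfl
      have hq' : q = 2 := by omega
      subst hq' hb1
      simp [Pg, PR, PY, PT, PP, PD, HR, HY, HT, HP, HD] at hp'
    · -- S, 6 → 4
      have hb1 : b = X i k := hb.2 rfl
      have hq' : q = 5 := by omega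
      subst hq' hb1
      simp [Pg, PR, PY, PT, PP, PD, HR, HY, HT, HP, HD] at hp'
    · -- S, 7 → 4
      have hb1 : b = X i k := hb.2 rfl
      have hq' : q = 6 ∨ q = 5 := by omega
      rcases hq' with rfl | rfl
      · exact Or.inr (Or.inl ⟨by simp [HY, hi], by simp [hb1]⟩)
      · subst hb1
        simp [Pg, PR, PY, PT, PP, PD, HR, HY, HT, HP, HD] at hp'
    · -- MR, 4 → 2
      have hb1 : b = !X i k := hb.1 (Or.inr rfl)
      have hq' : q = 3 := by omega
      subst hq' hb1
      simp [Pg, PR, PY, PT, PP, PD, HR, HY, HT, HP, HD] at hp'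
    · -- MR, 5 → 2
      have hb1 : b = !X i k := hb.1 (Or.inr rfl)
      have hq' : q = 4 ∨ q = 3 := by omega
      rcases hq' with rfl | rfl
      · exact Or.inr (Or.inl ⟨by simp [HY, hi], by simp [hb1]⟩)
      · subst hb1
        simp [Pg, PR, PY, PT, PP, PD, HR, HY, HT, HP, HD] at hp'
  · exfalso
    obtain ⟨q, hq0, hq⟩ := btw_same h1
    simp only [Prod.mk.injEq] at hq0
    obtain ⟨rfl, rfl, rfl, rfl⟩ := hq0
    obtain ⟨j, ρ, c, m'⟩ := s
    rcases h with ⟨rfl, rfl, rfl | rfl⟩ | ⟨rfl, rfl, rfl | rfl⟩ | ⟨rfl, rfl, rfl | rfl⟩ |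
      ⟨rfl, rfl, rfl | rfl⟩
    · have hb1 : b = !X i' k' := hb.1 (Or.inl rfl)
      have hq' : m = 1 ∨ m = 2 := by omega
      rcases hq' with rfl | rfl <;> subst hb1 <;>
        simp [Pg, PR, PY, PT, PP, PD, HR, IsTT, HY, HT, HP, HD] at hp' <;>
        grind (splits := 20)
    · have hb1 : b = !X i' k' := hb.1 (Or.inl rfl)
      have hq' : m = 2 := by omega
      subst hq' hb1
      simp [Pg, PR, PY, PT, PP, PD, HR, IsTT, HY, HT, HP, HD] at hp' <;>
      grind (splits := 20)
    · have hb1 : b = X i' k' := hb.2 rfl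
      have hq' : m = 1 ∨ m = 2 := by omega
      rcases hq' with rfl | rfl <;> subst hb1 <;>
        simp [Pg, PR, PY, PT, PP, PD, HR, IsTT, HY, HT, HP, HD] at hp' <;>
        grind (splits := 20)
    · have hb1 : b = X i' k' := hb.2 rfl
      have hq' : m = 2 := by omega
      subst hq' hb1
      simp [Pg, PR, PY, PT, PP, PD, HR, IsTT, HY, HT, HP, HD] at hp' <;>
      grind (splits := 20)
    · have hb1 : b = X i' k' := hb.2 rfl
      have hq' : m = 5 := by omega
      subst hq' hb1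
      simp [Pg, PR, PY, PT, PP, PD, HR, IsTT, HY, HT, HP, HD] at hp' <;>
      grind (splits := 20)
    · have hb1 : b = X i' k' := hb.2 rfl
      have hq' : m = 6 ∨ m = 5 := by omega
      rcases hq' with rfl | rfl <;> subst hb1 <;>
        simp [Pg, PR, PY, PT, PP, PD, HR, IsTT, HY, HT, HP, HD] at hp' <;>
        grind (splits := 20)
    · have hb1 : b = !X i' k' := hb.1 (Or.inr rfl)
      have hq' : m = 3 := by omega
      subst hq' hb1
      simp [Pg, PR, PY, PT, PP, PD, HR, IsTT, HY, HT, HP, HD] at hp' <;>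
      grind (splits := 20)
    · have hb1 : b = !X i' k' := hb.1 (Or.inr rfl)
      have hq' : m = 4 ∨ m = 3 := by omega
      rcases hq' with rfl | rfl <;> subst hb1 <;>
        simp [Pg, PR, PY, PT, PP, PD, HR, IsTT, HY, HT, HP, HD] at hp' <;>
        grind (splits := 20)

theorem sg_cY : M_cY := by
  intro K ops X _ _ b s t s' t' _ _ _ _ hφ hp hp' hcr
  rcases hφ with h | h
  · exact caseA h hp hp' hcr
  · exact caseB h hp' hp hcr

end Pool.Agent.Helper99.SC.CY
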